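import Mathlib

set_option autoImplicit false

namespace Pool.Agent.Results.MP_2a1065_lc.Long

open Finset Function Classical

structure Game (U H : Type) where
  int : U → H → Prop
  q : H → ℝ
  C : H → ℝ
  B : U → ℝ
  hq : ∀ h, 0 < q h
  hC : ∀ h, 0 < C h
  hB : ∀ j, 0 < B j

variable {U H : Type} [Fintype U] [DecidableEq U] [DecidableEq H]

def Feas (G : Game U H) (j : U) (s : Finset H) : Prop :=
  (∀ h ∈ s, G.int j h) ∧ ∑ h ∈ s, G.C h ≤ G.B j

noncomputable def pay (G : Game U H) (S : U → Finset H) (j : U) : ℝ :=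
  ∑ h ∈ S j, G.q h / ((univ.filter fun k => h ∈ S k).card : ℝ)

def BR (G : Game U H) (S T : U → Finset H) : Prop :=
  ∃ j s, T = update S j s ∧ Feas G j s ∧ pay G S j < pay G T j ∧
    ∀ t, Feas G j t → pay G (update S j t) j ≤ pay G T j

inductive Pth {X : Type} (R : X → X → Prop) : ℕ → X → X → Prop
  | nil (x) : Pth R 0 x x
  | cons {n x y z} : R x y → Pth R n y z → Pth R (n + 1) x z

lemma Pth.app {X : Type} {R : X → X → Prop} {n m : ℕ} {x y z : X} (h : Pth R n x y)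
    (h' : Pth R m y z) : Pth R (m + n) x z := by
  induction h with
  | nil => exact h'
  | cons r _ ih => exact .cons r (ih h')

lemma Pth.map {X Y : Type} {R : X → X → Prop} {R' : Y → Y → Prop} (f : X → Y)
    (hf : ∀ x y, R x y → R' (f x) (f y)) {n : ℕ} {x y : X} (h : Pth R n x y) :
    Pth R' n (f x) (f y) := by
  induction h with
  | nil => exact .nil _
  | cons r _ ih => exact .cons (hf _ _ r) ih

noncomputable def oth (S : U → Finset H) (j : U) (h : H) : ℕ :=
  ((univ.erase j).filter fun k => h ∈ S k).card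

lemma pay_up (G : Game U H) (S : U → Finset H) (j : U) (t : Finset H) :
    pay G (update S j t) j = ∑ h ∈ t, G.q h / (oth S j h + 1) := by
  simp only [pay, update_self]
  refine sum_congr rfl fun h hh => ?_
  have : (univ.filter fun k => h ∈ update S j t k) =
      insert j ((univ.erase j).filter fun k => h ∈ S k) := by
    ext k
    by_cases e : k = j
    · simp [e, hh]
    · simp [e]
  rw [this, card_insert_of_notMem (by simp), oth]
  push_cast
  rfl

def ok (i d : ℕ) : Prop := (d = 1 ∧ (i % 4 = 0 ∨ i % 4 = 3)) ∨ (d = 2 ∧ i % 4 ≠ 3)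

def Mv (K : ℕ) (x y : ℕ → Bool) : Prop :=
  ∃ i < K, y = update x i (!x i) ∧ (x i = true ↔ ∃ d, ok i d ∧ x (i + d) = true)

def St : ℕ → Bool → (ℕ → Bool) → Prop
  | 0, _, _ => True
  | k + 1, v, x => x (4 * k) = false ∧ x (4 * k + 1) = v ∧ x (4 * k + 2) = (!v) ∧
      x (4 * k + 3) = (!v) ∧ St k false x

lemma St.congr : ∀ {k : ℕ} {v : Bool} {x y : ℕ → Bool}, St k v x → (∀ i < 4 * k, y i = x i) →
    St k v y
  | 0, _, _, _, _, _ => trivial
  | k + 1, _, _, _, h, e => ⟨by rw [e _ (by omega), h.1], by rw [e _ (by omega), h.2.1],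
      by rw [e _ (by omega), h.2.2.1], by rw [e _ (by omega), h.2.2.2.1],
      h.2.2.2.2.congr fun i hi => e i (by omega)⟩

lemma okex (i : ℕ) (x : ℕ → Bool) : (∃ d, ok i d ∧ x (i + d) = true) ↔
    ((i % 4 = 0 ∨ i % 4 = 3) ∧ x (i + 1) = true) ∨ (i % 4 ≠ 3 ∧ x (i + 2) = true) := by
  constructor
  · rintro ⟨d, ⟨rfl, a⟩ | ⟨rfl, a⟩, b⟩
    · exact .inl ⟨a, b⟩
    · exact .inr ⟨a, b⟩
  · rintro (⟨a, b⟩ | ⟨a, b⟩)
    · exact ⟨1, .inl ⟨rfl, a⟩, b⟩
    · exact ⟨2, .inr ⟨rfl, a⟩, b⟩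

def V (k : ℕ) (x z : ℕ → Bool) (a b c d : Bool) : Prop :=
  z (4 * k) = a ∧ z (4 * k + 1) = b ∧ z (4 * k + 2) = c ∧ z (4 * k + 3) = d ∧
    ∀ i, 4 * k + 4 ≤ i → z i = x i

lemma run (K : ℕ) : ∀ k, 4 * k ≤ K → ∀ v x, x (4 * k) = v → St k (!v) x →
    ∃ n y, Pth (Mv K) n x y ∧ 5 * 2 ^ k ≤ n + 5 ∧ St k v y ∧ ∀ i, 4 * k ≤ i → y i = x i := by
  intro k
  induction k with
  | zero => exact fun _ v x _ _ => ⟨0, x, .nil _, by simp, trivial, fun _ _ => rfl⟩
  | succ k ih =>
    intro hK v x hx hs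
    have hx : x (4 * k + 4) = v := hx
    have m0 : 4 * k % 4 = 0 := by omega
    have m1 : (4 * k + 1) % 4 = 1 := by omega
    have m2 : (4 * k + 2) % 4 = 2 := by omega
    have m3 : (4 * k + 3) % 4 = 3 := by omega
    have f0 : ∀ z a b c d, V k x z a b c d → St k a z → (a = true ↔ b = true ∨ c = true) →
        ∃ n y, Pth (Mv K) n z y ∧ 5 * 2 ^ k ≤ n + 4 ∧ St k (!a) y ∧ V k x y (!a) b c d := by
      rintro z a b c d ⟨h0, h1, h2, h3, h4⟩ s e
      obtain ⟨n, y, p, l, s', e'⟩ := ih (by omega) (!a) (update z (4 * k) (!z (4 * k)))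
        (by simp [h0]) (by
          rw [Bool.not_not]; exact s.congr fun i hi => update_of_ne (by omega) _ _)
      refine ⟨n + 1, y, .cons ⟨4 * k, by omega, rfl, by simp [okex, h0, h1, h2, e]⟩ p, by omega,
        s', by simp [e', h0], by simp [e', h1], by simp [e', h2], by simp [e', h3],
        fun i hi => ?_⟩
      rw [e' i (by omega), update_of_ne (by omega), h4 i hi]
    have f : ∀ z a b c d w r, V k x z a b c d → St k w z → 0 < r → r < 4 →
        (z (4 * k + r) = true ↔ ∃ d, ok (4 * k + r) d ∧ z (4 * k + r + d) = true) →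
        ∃ y, Mv K z y ∧ St k w y ∧ V k x y a (if r = 1 then !b else b) (if r = 2 then !c else c)
          (if r = 3 then !d else d) := by
      rintro z a b c d w r ⟨h0, h1, h2, h3, h4⟩ s r0 r4 e
      refine ⟨_, ⟨4 * k + r, by omega, rfl, e⟩, s.congr fun i hi => update_of_ne (by omega) _ _,
        ?_, ?_, ?_, ?_, fun i hi => by rw [update_of_ne (by omega), h4 i hi]⟩
      all_goals interval_cases r <;> simp [h0, h1, h2, h3]
    obtain ⟨h0, h1, h2, h3, s⟩ := hs
    have v0 : V k x x _ _ _ _ := ⟨h0, h1, h2, h3, fun _ _ => rfl⟩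
    cases v
    · obtain ⟨y1, p1, s1, v1⟩ := f _ _ _ _ _ _ 3 v0 s (by omega) (by omega) (by
        rw [okex]; simp [m3, add_assoc, hx, h3])
      obtain ⟨y2, p2, s2, v2⟩ := f _ _ _ _ _ _ 1 v1 s1 (by omega) (by omega) (by
        rw [okex]; simp [m1, add_assoc, v1.2.1, v1.2.2.2.1])
      obtain ⟨n3, y3, p3, l3, s3, v3⟩ := f0 _ _ _ _ _ v2 s2 (by simp)
      obtain ⟨y4, p4, s4, v4⟩ := f _ _ _ _ _ _ 2 v3 s3 (by omega) (by omega) (by
        rw [okex]; simp [m2, add_assoc, v3.2.2.1, v3.2.2.2.2, hx])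
      obtain ⟨n5, y5, p5, l5, s5, v5⟩ := f0 _ _ _ _ _ v4 s4 (by simp)
      refine ⟨_, y5, .cons p1 (.cons p2 (p3.app (.cons p4 p5))), by rw [pow_succ]; omega,
        ⟨v5.1, v5.2.1, v5.2.2.1, v5.2.2.2.1, s5⟩, fun i hi => v5.2.2.2.2 i (by omega)⟩
    · obtain ⟨y1, p1, s1, v1⟩ := f _ _ _ _ _ _ 2 v0 s (by omega) (by omega) (by
        rw [okex]; simp [m2, add_assoc, hx, h2])
      obtain ⟨n2, y2, p2, l2, s2, v2⟩ := f0 _ _ _ _ _ v1 s1 (by simp)
      obtain ⟨y3, p3, s3, v3⟩ := f _ _ _ _ _ _ 3 v2 s2 (by omega) (by omega) (by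
        rw [okex]; simp [m3, add_assoc, v2.2.2.2.1, v2.2.2.2.2, hx])
      obtain ⟨y4, p4, s4, v4⟩ := f _ _ _ _ _ _ 1 v3 s3 (by omega) (by omega) (by
        rw [okex]; simp [m1, add_assoc, v3.2.1, v3.2.2.2.1])
      obtain ⟨n5, y5, p5, l5, s5, v5⟩ := f0 _ _ _ _ _ v4 s4 (by simp)
      refine ⟨_, y5, .cons p1 (p2.app (.cons p3 (.cons p4 p5))), by rw [pow_succ]; omega,
        ⟨v5.1, v5.2.1, v5.2.2.1, v5.2.2.2.1, s5⟩, fun i hi => v5.2.2.2.2 i (by omega)⟩

variable {N : ℕ}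

noncomputable def Up (j : Fin N) : Finset (Fin N × Fin 3) :=
  univ.filter fun h => ok h.1 h.2 ∧ h.1 = j

noncomputable def Dn (j : Fin N) : Finset (Fin N × Fin 3) :=
  univ.filter fun h => ok h.1 h.2 ∧ (j : ℕ) = h.1 + h.2

lemma ok0 {i : ℕ} {d : Fin 3} (h : ok i d) : d ≠ 0 := by
  rintro rfl
  simp [ok] at h

lemma up_ne (j : Fin N) : (Up j).Nonempty := by
  by_cases h : (j : ℕ) % 4 = 3
  · exact ⟨(j, 1), by simp [Up, ok, h]⟩
  · exact ⟨(j, 2), by simp [Up, ok, h]⟩

noncomputable def G (N : ℕ) : Game (Fin N) (Fin N × Fin 3) where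
  int j h := h = (j, 0) ∨ h ∈ Up j ∪ Dn j
  q h := if h.2 = 0 then (Up h.1).card * 8 ^ (h.1 : ℕ) - 8 ^ (h.1 : ℕ) / 16 else 8 ^ (h.1 : ℕ)
  C h := if h.2 = 0 then 3 * N + 1 else 1
  B _ := 3 * N + 1
  hq h := by
    have : (0 : ℝ) < 8 ^ (h.1 : ℕ) := by positivity
    have : (1 : ℝ) ≤ (Up h.1).card := by exact_mod_cast (up_ne h.1).card_pos
    split_ifs <;> nlinarith
  hC h := by split_ifs <;> positivity
  hB _ := by positivity

noncomputable def S (N : ℕ) (x : ℕ → Bool) (j : Fin N) : Finset (Fin N × Fin 3) :=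
  if x j then Up j ∪ Dn j else {(j, 0)}

lemma ne0 {j : Fin N} {h : Fin N × Fin 3} (hh : h ∈ Up j ∪ Dn j) : h.2 ≠ 0 := by
  simp only [Up, Dn, mem_union, mem_filter] at hh
  exact ok0 (hh.elim (·.2.1) (·.2.1))

lemma feas (x : ℕ → Bool) (j : Fin N) : Feas (G N) j (S N x j) := by
  unfold S
  split_ifs
  · refine ⟨fun h hh => .inr hh, ?_⟩
    rw [sum_congr rfl (f := (G N).C) (g := fun _ => 1) fun h hh => if_neg (ne0 hh)]
    have : ((Up j ∪ Dn j).card : ℝ) ≤ (N * 3 : ℕ) := by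
      exact_mod_cast (card_le_univ _).trans (by simp)
    simp only [sum_const, nsmul_eq_mul, G]
    push_cast at this
    linarith
  · exact ⟨by simp [G], by simp [G]⟩

lemma priv (x : ℕ → Bool) (j : Fin N) :
    pay (G N) (update (S N x) j {(j, 0)}) j = (Up j).card * 8 ^ (j : ℕ) - 8 ^ (j : ℕ) / 16 := by
  have : oth (S N x) j (j, 0) = 0 := by
    refine card_eq_zero.2 (filter_eq_empty_iff.2 fun k hk hh => ?_)
    unfold S at hh
    split_ifs at hh
    · exact ne0 hh rfl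
    · simp only [mem_singleton, Prod.mk.injEq] at hh
      exact (mem_erase.1 hk).1 hh.1.symm
  simp [pay_up, this, G]

lemma best (T : Fin N → Finset (Fin N × Fin 3)) (j : Fin N) (t) (ht : Feas (G N) j t) :
    t = {(j, 0)} ∨ pay (G N) (update T j t) j ≤ pay (G N) (update T j (Up j ∪ Dn j)) j := by
  by_cases h : (j, 0) ∈ t
  · refine .inl (eq_singleton_iff_unique_mem.2 ⟨h, fun g hg => by_contra fun ne => ?_⟩)
    have := (sum_le_sum_of_subset_of_nonneg (s := {g, (j, 0)}) (by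
      simp [insert_subset_iff, h, hg]) fun i _ _ => ((G N).hC i).le).trans ht.2
    rw [sum_pair ne] at this
    have := (G N).hC g
    simp only [G, if_true] at *
    linarith
  · rw [pay_up, pay_up]
    refine .inr (sum_le_sum_of_subset_of_nonneg (fun g hg => (ht.1 g hg).resolve_left ?_)
      fun i _ _ => by have := (G N).hq i; positivity)
    rintro rfl
    exact h hg

lemma qup {j : Fin N} {h : Fin N × Fin 3} (hh : h ∈ Up j) : (G N).q h = 8 ^ (j : ℕ) := by
  rw [← (mem_filter.1 hh).2.2]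
  exact if_neg (ne0 (mem_union_left _ hh))

lemma lo (x : ℕ → Bool) (j : Fin N) (h : ¬ ∃ d, ok j d ∧ x (j + d) = true) :
    (Up j).card * 8 ^ (j : ℕ) ≤ pay (G N) (update (S N x) j (Up j ∪ Dn j)) j := by
  rw [pay_up]
  refine le_trans (le_of_eq ?_) (sum_le_sum_of_subset_of_nonneg subset_union_left
    fun i _ _ => by have := (G N).hq i; positivity)
  rw [sum_congr rfl (g := fun _ => 8 ^ (j : ℕ)) fun g hg => ?_]
  · simp
  have : oth (S N x) j g = 0 := by
    refine card_eq_zero.2 (filter_eq_empty_iff.2 fun k hk hh => ?_)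
    obtain ⟨-, a, rfl⟩ := mem_filter.1 hg
    unfold S at hh
    split_ifs at hh with c
    · simp only [Up, Dn, mem_union, mem_filter] at hh
      rcases hh with hh | hh
      · exact (mem_erase.1 hk).1 hh.2.2.symm
      · exact h ⟨_, a, hh.2.2 ▸ c⟩
    · exact ok0 a (by rw [mem_singleton.1 hh])
  simp [this, qup hg]

lemma hi (x : ℕ → Bool) (j : Fin N) (d : ℕ) (h : ok j d) (hx : x (j + d) = true)
    (hd : j + d < N) : pay (G N) (update (S N x) j (Up j ∪ Dn j)) j ≤
      (Up j).card * 8 ^ (j : ℕ) - 8 ^ (j : ℕ) / 8 := by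
  have d3 : 0 < d ∧ d < 3 := by unfold ok at h; omega
  have le : ∀ g, (G N).q g / (oth (S N x) j g + 1) ≤ (G N).q g := fun g =>
    div_le_self ((G N).hq g).le (by simp)
  have hg : (j, ⟨d, d3.2⟩) ∈ Up j := by simp [Up, h]
  have a : ∑ g ∈ Up j, (G N).q g / (oth (S N x) j g + 1) ≤
      (Up j).card * 8 ^ (j : ℕ) - 8 ^ (j : ℕ) / 2 := by
    have o : (1 : ℝ) ≤ oth (S N x) j (j, ⟨d, d3.2⟩) := by
      have : 0 < oth (S N x) j (j, ⟨d, d3.2⟩) := card_pos.2 ⟨⟨j + d, hd⟩, by
        simp [S, hx, Dn, h, Fin.ext_iff, d3.1.ne']⟩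
      exact_mod_cast this
    have b : (8 : ℝ) ^ (j : ℕ) / (oth (S N x) j (j, ⟨d, d3.2⟩) + 1) ≤ 8 ^ (j : ℕ) / 2 := by
      gcongr
      linarith
    have c := sum_le_card_nsmul ((Up j).erase (j, ⟨d, d3.2⟩)) _ _ fun g hg =>
      (le g).trans (qup (mem_of_mem_erase hg)).le
    rw [← add_sum_erase _ _ hg, ← card_erase_add_one hg, qup hg]
    rw [nsmul_eq_mul] at c
    push_cast
    linarith
  have b := sum_le_card_nsmul (Dn j) (fun g => (G N).q g / (oth (S N x) j g + 1))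
    (8 ^ (j : ℕ) / 8) fun g hg => (le g).trans (by
      have e := ne0 (mem_union_right _ hg)
      have e' : (g.2 : ℕ) ≠ 0 := fun c => e (Fin.ext c)
      have := (mem_filter.1 hg).2.2
      simp only [G, if_neg e]
      rw [le_div_iff₀ (by norm_num), ← pow_succ]
      exact pow_le_pow_right₀ (by norm_num) (by omega))
  have c : ((Dn j).card : ℝ) ≤ 3 := by
    have := card_le_card_of_injOn (s := Dn j) (t := univ) Prod.snd (by simp) fun g hg g' hg' e => by
      have a := (mem_filter.1 hg).2.2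
      have b := (mem_filter.1 hg').2.2
      rw [e] at a
      exact Prod.ext (Fin.ext (by omega)) e
    exact_mod_cast this.trans (by simp)
  have u := sum_union_inter (s₁ := Up j) (s₂ := Dn j)
    (f := fun g => (G N).q g / (oth (S N x) j g + 1))
  have p : 0 ≤ ∑ g ∈ Up j ∩ Dn j, (G N).q g / (oth (S N x) j g + 1) :=
    sum_nonneg fun i _ => by have := (G N).hq i; positivity
  have : (0 : ℝ) < 8 ^ (j : ℕ) := by positivity
  rw [nsmul_eq_mul] at b
  rw [pay_up]
  nlinarith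

lemma sim (K : ℕ) (x y : ℕ → Bool) (h : Mv K x y) :
    BR (G (K + 2)) (S (K + 2) x) (S (K + 2) y) := by
  obtain ⟨i, iK, rfl, e⟩ := h
  let j : Fin (K + 2) := ⟨i, by omega⟩
  have up : S (K + 2) (update x i (!x i)) =
      update (S (K + 2) x) j (S (K + 2) (update x i (!x i)) j) := by
    funext k
    by_cases c : k = j
    · rw [c, update_self]
    · rw [update_of_ne c, S, S, update_of_ne fun e => c (Fin.ext e)]
  have self : pay (G (K + 2)) (S (K + 2) x) j =
      pay (G (K + 2)) (update (S (K + 2) x) j (S (K + 2) x j)) j := by rw [update_eq_self]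
  have pr := priv x j
  have : (0 : ℝ) < 8 ^ (j : ℕ) := by positivity
  refine ⟨j, _, up, feas _ _, ?_⟩
  rw [up, self]
  cases c : x i
  · have := lo x j (by rw [← e, c]; simp)
    have e1 : S (K + 2) x j = {(j, 0)} := by simp [S, j, c]
    have e2 : S (K + 2) (update x i (!false)) j = Up j ∪ Dn j := by simp [S, j]
    rw [e1, e2]
    refine ⟨by linarith, fun t ht => ?_⟩
    rcases best (S (K + 2) x) j t ht with rfl | b
    · linarith
    · exact b
  · obtain ⟨d, a, b⟩ := e.1 c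
    have := hi x j d a b (by unfold ok at a; simp only [j]; omega)
    have e1 : S (K + 2) x j = Up j ∪ Dn j := by simp [S, j, c]
    have e2 : S (K + 2) (update x i (!true)) j = {(j, 0)} := by simp [S, j]
    rw [e1, e2]
    refine ⟨by linarith, fun t ht => ?_⟩
    rcases best (S (K + 2) x) j t ht with rfl | b
    · exact le_rfl
    · linarith

theorem result : ∃ c : ℝ, 0 < c ∧ ∀ M : ℕ, ∃ (U H : Type) (_ : Fintype U) (_ : Fintype H)
    (_ : DecidableEq U) (_ : DecidableEq H) (G : Game U H) (l : ℕ) (S T : U → Finset H), M ≤ Fintype.card U + Fintype.card H ∧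
      (∀ j, Feas G j (S j)) ∧ Pth (BR G) l S T ∧
      (2 : ℝ) ^ (c * (Fintype.card U + Fintype.card H : ℕ)) ≤ l := by
  refine ⟨1 / 24, by norm_num, fun M => ?_⟩
  have st : ∀ k, St k false fun i => decide (2 ≤ i % 4) := by
    intro k
    induction k with
    | zero => trivial
    | succ k ih => exact ⟨by simp, by simp, by simp, by simp, ih⟩
  obtain ⟨n, y, p, l, -⟩ := run (4 * (M + 1)) (M + 1) le_rfl true
    (update (fun i => decide (2 ≤ i % 4)) (4 * (M + 1)) true) (by simp)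
    ((st _).congr fun i hi => update_of_ne (by omega) _ _)
  refine ⟨Fin (4 * (M + 1) + 2), _, inferInstance, inferInstance, inferInstance, inferInstance,
    G _, n, _, _,
    by simp; omega, feas _, p.map _ (sim _), ?_⟩
  have a : 2 ≤ 2 ^ (M + 1) := by rw [pow_succ]; have := Nat.one_le_two_pow (n := M); omega
  have b : (2 : ℝ) ^ (M + 1) ≤ n := by exact_mod_cast (by omega : 2 ^ (M + 1) ≤ n)
  refine le_trans ?_ b
  rw [← Real.rpow_natCast]
  refine Real.rpow_le_rpow_of_exponent_le (by norm_num) ?_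
  simp only [Fintype.card_fin, Fintype.card_prod]
  push_cast
  have : (0 : ℝ) ≤ M := by positivity
  linarith

end Pool.Agent.Results.MP_2a1065_lc.Long
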